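import Mathlib

/-!
# MP_0ac583_co: the chromatic profile does not refine the chromatic threshold

`H` is a `4`-cycle with ten pendant vertices attached at one vertex `0`.  `B1` orients the cycle
cyclically, with two leaves pointing to `0` and eight leaves pointed to by `0`; `B2` makes `0` a
sink (the cycle is antidirected and all leaves point to `0`).  Then
`threshold B2 ≤ 1/8 < 1/4 ≤ threshold B1`, but `profile B1 13 ≤ 39/50 < 11/14 ≤ profile B2 13`.
-/

set_option autoImplicit false

open Finset

namespace Pool.Agent.Results.MP_0ac583_co.Pendant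

open Classical in
/-- the out-degree of `v` -/
noncomputable def outdeg {V : Type} [Fintype V] (A : V → V → Prop) (v : V) : ℕ :=
  (Finset.univ.filter fun w => A v w).card

open Classical in
/-- the in-degree of `v` -/
noncomputable def indeg {V : Type} [Fintype V] (A : V → V → Prop) (v : V) : ℕ :=
  (Finset.univ.filter fun w => A w v).card

/-- the underlying simple graph of a digraph -/
def under {V : Type} (A : V → V → Prop) : SimpleGraph V where
  Adj u v := u ≠ v ∧ (A u v ∨ A v u)
  symm := ⟨fun _ _ h => ⟨h.1.symm, h.2.symm⟩⟩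
  loopless := ⟨fun _ h => h.1 rfl⟩

/-- the digraph `B` is a (not necessarily induced) subdigraph of `A` -/
def Contains {W V : Type} (B : W → W → Prop) (A : V → V → Prop) : Prop :=
  ∃ f : W → V, Function.Injective f ∧ ∀ a b, B a b → A (f a) (f b)

/-- `B` is an orientation of the simple graph `H` -/
def IsOrientation {W : Type} (H : SimpleGraph W) (B : W → W → Prop) : Prop :=
  (∀ a b, B a b → H.Adj a b) ∧ (∀ a b, H.Adj a b → B a b ∨ B b a) ∧ (∀ a b, B a b → ¬ B b a)

/-- the chromatic profile -/
noncomputable def profile {W : Type} (B : W → W → Prop) (k : ℕ) : ℝ :=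
  sInf {d : ℝ | 0 ≤ d ∧ ∀ (V : Type) (_ : Fintype V) (A : V → V → Prop), (∀ v, ¬ A v v) →
    ¬ Contains B A → (∀ v, d * (Fintype.card V : ℝ) ≤ (outdeg A v : ℝ)) → (under A).Colorable k}

/-- the chromatic threshold -/
noncomputable def threshold {W : Type} (B : W → W → Prop) : ℝ :=
  sInf {d : ℝ | 0 ≤ d ∧ ∃ C : ℕ, ∀ (V : Type) (_ : Fintype V) (A : V → V → Prop),
    (∀ v, ¬ A v v) → ¬ Contains B A → (∀ v, d * (Fintype.card V : ℝ) ≤ (outdeg A v : ℝ)) →
      (under A).Colorable C}

/-- the vertex set: a `4`-cycle `0 1 2 3` and ten leaves attached at `0` -/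
abbrev W : Type := Fin 4 ⊕ (Fin 2 ⊕ Fin 8)

/-- directed `4`-cycle `0 → 1 → 2 → 3 → 0`, two leaves with arcs to `0`, eight leaves with arcs
from `0` -/
def B1 : W → W → Prop
  | Sum.inl i, Sum.inl j => (i = 0 ∧ j = 1) ∨ (i = 1 ∧ j = 2) ∨ (i = 2 ∧ j = 3) ∨ (i = 3 ∧ j = 0)
  | Sum.inr (Sum.inl _), Sum.inl j => j = 0
  | Sum.inl i, Sum.inr (Sum.inr _) => i = 0
  | _, _ => False

/-- `1 → 0`, `3 → 0`, `1 → 2`, `3 → 2`, and all ten leaves have arcs to `0` -/
def B2 : W → W → Prop
  | Sum.inl i, Sum.inl j => (i = 1 ∨ i = 3) ∧ (j = 0 ∨ j = 2)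
  | Sum.inr _, Sum.inl j => j = 0
  | _, _ => False

/-- the underlying graph: a `4`-cycle with ten pendant vertices attached at `0` -/
def H : SimpleGraph W := under B1

theorem orient1 : IsOrientation H B1 := by
  refine ⟨?_, ?_, ?_⟩
  · intro a b h
    refine ⟨?_, Or.inl h⟩
    rintro rfl
    rcases a with i | i | i
    · simp only [B1] at h; omega
    · simp only [B1] at h
    · simp only [B1] at h
  · intro a b h; exact h.2
  · rintro (i | i | i) (j | j | j) h h' <;> simp only [B1] at h h' <;> omega

theorem orient2 : IsOrientation H B2 := by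
  refine ⟨?_, ?_, ?_⟩
  · rintro (i | i | i) (j | j | j) h <;> simp only [B2] at h <;> refine ⟨?_, ?_⟩ <;>
      simp only [B1, ne_eq, Sum.inl.injEq, Sum.inr.injEq, reduceCtorEq, not_false_eq_true,
        false_or, or_false] <;> omega
  · rintro (i | i | i) (j | j | j) ⟨h, h'⟩
    · simp only [B1] at h'
      simp only [B2]
      omega
    · simp only [B1, false_or] at h'
      simp only [B2, false_or]
      exact h'
    · simp only [B1, or_false] at h'
      simp only [B2, false_or]
      exact h'
    · simp only [B1, or_false] at h'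
      simp only [B2, or_false]
      exact h'
    · simp only [B1, or_false] at h'
    · simp only [B1, or_false] at h'
    · simp only [B1, false_or] at h'
      simp only [B2, or_false]
      exact h'
    · simp only [B1, or_false] at h'
    · simp only [B1, or_false] at h'
  · rintro (i | i | i) (j | j | j) h h' <;> simp only [B2] at h h' <;> omega

/-! ### Colouring lemmas -/

theorem colorable_of_merge {V : Type} [Fintype V] [DecidableEq V] (G : SimpleGraph V) (f : V → V)
    (hf : ∀ u w, f u = f w → ¬ G.Adj u w) (k : ℕ) (hk : (Finset.univ.image f).card ≤ k) :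
    G.Colorable k := by
  have C : G.Coloring {c // c ∈ Finset.univ.image f} :=
    SimpleGraph.Coloring.mk (fun v => ⟨f v, Finset.mem_image_of_mem f (Finset.mem_univ v)⟩) (by
      intro u w huw h
      exact hf u w (congrArg Subtype.val h) huw)
  have h1 := C.colorable
  rw [Fintype.card_coe] at h1
  exact h1.mono hk

theorem colorable_small {V : Type} [Fintype V] (G : SimpleGraph V) (k : ℕ)
    (hk : Fintype.card V ≤ k) : G.Colorable k := by
  classical
  exact colorable_of_merge G id (fun u w h => by rw [show u = w from h]; exact G.loopless.irrefl w) k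
    ((Finset.card_le_univ _).trans hk)

theorem colorable_one {V : Type} [Fintype V] (G : SimpleGraph V) (k : ℕ)
    (hk : Fintype.card V ≤ k + 1) {a b : V} (hab : a ≠ b) (hn : ¬ G.Adj a b) : G.Colorable k := by
  classical
  refine colorable_of_merge G (fun u => if u = b then a else u) ?_ k ?_
  · intro u w h
    have hn' : ¬ G.Adj b a := fun h' => hn h'.symm
    split_ifs at h with h1 h2 h2
    · rw [h1, h2]; exact G.loopless.irrefl b
    · rw [h1, ← h]; exact hn'
    · rw [h, h2]; exact hn
    · rw [h]; exact G.loopless.irrefl w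
  · have h1 : (Finset.univ.image fun u => if u = b then a else u) ⊆ Finset.univ.erase b := by
      intro c hc
      rw [Finset.mem_image] at hc
      obtain ⟨u, _, hu⟩ := hc
      rw [Finset.mem_erase]
      refine ⟨?_, Finset.mem_univ _⟩
      rw [← hu]
      split_ifs with h2
      · exact hab
      · exact h2
    have h2 := Finset.card_le_card h1
    rw [Finset.card_erase_of_mem (Finset.mem_univ _), Finset.card_univ] at h2
    omega

theorem colorable_two {V : Type} [Fintype V] (G : SimpleGraph V) (k : ℕ)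
    (hk : Fintype.card V ≤ k + 2) {a b c d : V} (hab : a ≠ b) (hn : ¬ G.Adj a b)
    (hcd : c ≠ d) (hn2 : ¬ G.Adj c d) (hbd : b ≠ d) (had : a ≠ d) (hcb : c ≠ b)
    (hac : a = c → ¬ G.Adj b d) : G.Colorable k := by
  classical
  refine colorable_of_merge G (fun u => if u = b then a else if u = d then c else u) ?_ k ?_
  · intro u w h
    have hn' : ¬ G.Adj b a := fun h' => hn h'.symm
    have hn2' : ¬ G.Adj d c := fun h' => hn2 h'.symm
    have hac' : a = c → ¬ G.Adj d b := fun h h' => hac h h'.symm
    split_ifs at h with h1 h2 h3 h4 h5 h6 h7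
    · rw [h1, h2]; exact G.loopless.irrefl b
    · rw [h1, h3]; exact hac h
    · rw [h1, ← h]; exact hn'
    · rw [h4, h5]; exact hac' h.symm
    · rw [h4, h6]; exact G.loopless.irrefl d
    · rw [h4, ← h]; exact hn2'
    · rw [h, h7]; exact hn
    · rename_i h8; rw [h, h8]; exact hn2
    · rw [h]; exact G.loopless.irrefl w
  · have h1 : (Finset.univ.image fun u => if u = b then a else if u = d then c else u) ⊆
        (Finset.univ.erase b).erase d := by
      intro e he
      rw [Finset.mem_image] at he
      obtain ⟨u, _, hu⟩ := he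
      rw [Finset.mem_erase, Finset.mem_erase]
      rw [← hu]
      split_ifs with h2 h3
      · exact ⟨had, hab, Finset.mem_univ _⟩
      · exact ⟨hcd, hcb, Finset.mem_univ _⟩
      · exact ⟨h3, h2, Finset.mem_univ _⟩
    have h2 := Finset.card_le_card h1
    rw [Finset.card_erase_of_mem (Finset.mem_erase.mpr ⟨hbd.symm, Finset.mem_univ _⟩),
      Finset.card_erase_of_mem (Finset.mem_univ _), Finset.card_univ] at h2
    omega

/-! ### Embedding the first orientation -/

theorem embed1 {V : Type} [Fintype V] [DecidableEq V] (A : V → V → Prop) {v x y z : V}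
    (hvx : A v x) (hxy : A x y) (hyz : A y z) (hzv : A z v)
    (d1 : v ≠ x) (d2 : v ≠ y) (d3 : v ≠ z) (d4 : x ≠ y) (d5 : x ≠ z) (d6 : y ≠ z)
    (Ni No : Finset V) (hi : ∀ u ∈ Ni, A u v ∧ u ≠ v ∧ u ≠ x ∧ u ≠ y ∧ u ≠ z)
    (ho : ∀ u ∈ No, A v u ∧ u ≠ v ∧ u ≠ x ∧ u ≠ y ∧ u ≠ z)
    (h2 : 2 ≤ Ni.card) (h8 : 8 ≤ No.card) (h10 : 10 ≤ (Ni ∪ No).card) : Contains B1 A := by
  -- choose the two in-leaves
  obtain ⟨P, hP1, hP2, hP3⟩ : ∃ P : Finset V, P ⊆ Ni ∧ P.card = 2 ∧ 8 ≤ (No \ P).card := by
    have hun : (Ni ∪ No).card = (Ni \ No).card + No.card := by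
      rw [← Finset.card_union_of_disjoint Finset.sdiff_disjoint, Finset.sdiff_union_self_eq_union]
    by_cases hU : 2 ≤ (Ni \ No).card
    · obtain ⟨P, hP1, hP2⟩ := Finset.exists_subset_card_eq hU
      refine ⟨P, hP1.trans Finset.sdiff_subset, hP2, ?_⟩
      have : No \ P = No := by
        rw [Finset.sdiff_eq_self_iff_disjoint, Finset.disjoint_left]
        intro a ha hb
        exact (Finset.mem_sdiff.mp (hP1 hb)).2 ha
      rw [this]; exact h8
    · push Not at hU
      obtain ⟨P, hP0, hP1, hP2⟩ := Finset.exists_subsuperset_card_eq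
        (Finset.sdiff_subset : Ni \ No ⊆ Ni) hU.le h2
      refine ⟨P, hP1, hP2, ?_⟩
      have h3 : No \ P = No \ (P \ (Ni \ No)) := by
        ext a
        simp only [Finset.mem_sdiff]
        constructor
        · rintro ⟨a1, a2⟩
          exact ⟨a1, fun h => a2 h.1⟩
        · rintro ⟨a1, a2⟩
          refine ⟨a1, fun h => ?_⟩
          exact a2 ⟨h, fun h' => h'.2 a1⟩
      rw [h3]
      have h4 : (P \ (Ni \ No)).card = P.card - (Ni \ No).card := Finset.card_sdiff_of_subset hP0
      have h5 : No.card - (P \ (Ni \ No)).card ≤ (No \ (P \ (Ni \ No))).card :=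
        Finset.le_card_sdiff _ _
      omega
  obtain ⟨Q, hQ1, hQ2⟩ := Finset.exists_subset_card_eq hP3
  have eP : Fin 2 ≃ {u // u ∈ P} := Fintype.equivOfCardEq (by rw [Fintype.card_coe, hP2]; rfl)
  have eQ : Fin 8 ≃ {u // u ∈ Q} := Fintype.equivOfCardEq (by rw [Fintype.card_coe, hQ2]; rfl)
  have fP : ∀ i, A (eP i).1 v ∧ (eP i).1 ≠ v ∧ (eP i).1 ≠ x ∧ (eP i).1 ≠ y ∧ (eP i).1 ≠ z :=
    fun i => hi _ (hP1 (eP i).2)
  have fQ : ∀ i, A v (eQ i).1 ∧ (eQ i).1 ≠ v ∧ (eQ i).1 ≠ x ∧ (eQ i).1 ≠ y ∧ (eQ i).1 ≠ z :=
    fun i => ho _ (Finset.mem_sdiff.mp (hQ1 (eQ i).2)).1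
  have fPQ : ∀ i j, (eP i).1 ≠ (eQ j).1 := by
    intro i j h
    have h1 := (Finset.mem_sdiff.mp (hQ1 (eQ j).2)).2
    rw [← h] at h1
    exact h1 (eP i).2
  let c : Fin 4 → V := ![v, x, y, z]
  have hc : ∀ i, c i = v ∨ c i = x ∨ c i = y ∨ c i = z := by
    intro i; fin_cases i <;> simp [c]
  refine ⟨Sum.elim c (Sum.elim (fun i => (eP i).1) (fun i => (eQ i).1)), ?_, ?_⟩
  · rintro (i | i | i) (j | j | j) h
    · have h' : c i = c j := h
      fin_cases i <;> fin_cases j <;> simp [c] at h' ⊢ <;>
        first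
        | exact d1 h' | exact d2 h' | exact d3 h' | exact d4 h' | exact d5 h' | exact d6 h'
        | exact d1 h'.symm | exact d2 h'.symm | exact d3 h'.symm | exact d4 h'.symm
        | exact d5 h'.symm | exact d6 h'.symm
    · have h' : c i = (eP j).1 := h
      obtain ⟨-, a1, a2, a3, a4⟩ := fP j
      rcases hc i with k | k | k | k <;> rw [k] at h'
      · exact absurd h'.symm a1
      · exact absurd h'.symm a2
      · exact absurd h'.symm a3
      · exact absurd h'.symm a4
    · have h' : c i = (eQ j).1 := h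
      obtain ⟨-, a1, a2, a3, a4⟩ := fQ j
      rcases hc i with k | k | k | k <;> rw [k] at h'
      · exact absurd h'.symm a1
      · exact absurd h'.symm a2
      · exact absurd h'.symm a3
      · exact absurd h'.symm a4
    · have h' : (eP i).1 = c j := h
      obtain ⟨-, a1, a2, a3, a4⟩ := fP i
      rcases hc j with k | k | k | k <;> rw [k] at h'
      · exact absurd h' a1
      · exact absurd h' a2
      · exact absurd h' a3
      · exact absurd h' a4
    · have h' : (eP i).1 = (eP j).1 := h
      rw [eP.injective (Subtype.ext h')]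
    · exact absurd h (fPQ i j)
    · have h' : (eQ i).1 = c j := h
      obtain ⟨-, a1, a2, a3, a4⟩ := fQ i
      rcases hc j with k | k | k | k <;> rw [k] at h'
      · exact absurd h' a1
      · exact absurd h' a2
      · exact absurd h' a3
      · exact absurd h' a4
    · exact absurd h.symm (fPQ j i)
    · have h' : (eQ i).1 = (eQ j).1 := h
      rw [eQ.injective (Subtype.ext h')]
  · rintro (i | i | i) (j | j | j) h <;> simp only [B1] at h
    · rcases h with ⟨rfl, rfl⟩ | ⟨rfl, rfl⟩ | ⟨rfl, rfl⟩ | ⟨rfl, rfl⟩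
      · exact hvx
      · exact hxy
      · exact hyz
      · exact hzv
    · subst h; exact (fQ j).1
    · subst h; exact (fP i).1

open Classical in
theorem sum_deg {V : Type} [Fintype V] (A : V → V → Prop) :
    ∑ v, indeg A v = ∑ v, outdeg A v := by
  unfold indeg outdeg
  simp_rw [Finset.card_filter]
  rw [Finset.sum_comm]

open Classical in
/-- a vertex `v` with large in-degree lies on a directed 4-cycle, and if moreover it has many
neighbours then `B1` embeds -/
theorem embed1' {V : Type} [Fintype V] (A : V → V → Prop) (hA : ∀ v, ¬ A v v) (g : ℕ)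
    (hg : ∀ u, g ≤ outdeg A u) (v : V) (h1 : Fintype.card V + 2 ≤ g + indeg A v)
    (h2 : 5 ≤ indeg A v) (h3 : 11 ≤ g)
    (h4 : 13 ≤ (Finset.univ.filter fun u => A u v ∨ A v u).card) : Contains B1 A := by
  have hout : ∀ u, g ≤ (Finset.univ.filter fun w => A u w).card := hg
  have hin : (Finset.univ.filter fun w => A w v).card = indeg A v := rfl
  obtain ⟨x, hx⟩ : (Finset.univ.filter fun w => A v w).Nonempty := by
    rw [← Finset.card_pos]; have := hout v; omega
  rw [Finset.mem_filter] at hx
  have hvx := hx.2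
  have dvx : v ≠ x := fun h => hA v (by rw [← h] at hvx; exact hvx)
  obtain ⟨y, hy⟩ : ((Finset.univ.filter fun w => A x w).erase v).Nonempty := by
    rw [← Finset.card_pos]
    have h5 := Finset.pred_card_le_card_erase (s := Finset.univ.filter fun w => A x w) (a := v)
    have := hout x
    omega
  rw [Finset.mem_erase, Finset.mem_filter] at hy
  have hxy := hy.2.2
  have dvy : v ≠ y := fun h => hy.1 h.symm
  have dxy : x ≠ y := fun h => hA x (by rw [← h] at hxy; exact hxy)
  obtain ⟨z, hz⟩ : (((Finset.univ.filter fun w => A y w) ∩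
      (Finset.univ.filter fun w => A w v)).erase x).Nonempty := by
    rw [← Finset.card_pos]
    have h5 := Finset.pred_card_le_card_erase (s := (Finset.univ.filter fun w => A y w) ∩
      (Finset.univ.filter fun w => A w v)) (a := x)
    have h6 := Finset.card_inter_add_card_union (Finset.univ.filter fun w => A y w)
      (Finset.univ.filter fun w => A w v)
    have h7 := Finset.card_le_univ ((Finset.univ.filter fun w => A y w) ∪
      (Finset.univ.filter fun w => A w v))
    have := hout y
    omega
  rw [Finset.mem_erase, Finset.mem_inter, Finset.mem_filter, Finset.mem_filter] at hz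
  have hyz := hz.2.1.2
  have hzv := hz.2.2.2
  have dxz : x ≠ z := fun h => hz.1 h.symm
  have dyz : y ≠ z := fun h => hA y (by rw [← h] at hyz; exact hyz)
  have dvz : v ≠ z := fun h => hA v (by rw [← h] at hzv; exact hzv)
  have hcard : ∀ S : Finset V, S.card - 3 ≤ (S \ {x, y, z}).card := by
    intro S
    have h5 : ({x, y, z} : Finset V).card ≤ 3 := Finset.card_le_three
    have h6 := Finset.le_card_sdiff {x, y, z} S
    omega
  refine embed1 A hvx hxy hyz hzv dvx dvy dvz dxy dxz dyz
    ((Finset.univ.filter fun w => A w v) \ {x, y, z})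
    ((Finset.univ.filter fun w => A v w) \ {x, y, z}) ?_ ?_ ?_ ?_ ?_
  · intro u hu
    rw [Finset.mem_sdiff, Finset.mem_filter] at hu
    simp only [Finset.mem_insert, Finset.mem_singleton, not_or] at hu
    refine ⟨hu.1.2, ?_, hu.2.1, hu.2.2.1, hu.2.2.2⟩
    rintro rfl
    exact hA _ hu.1.2
  · intro u hu
    rw [Finset.mem_sdiff, Finset.mem_filter] at hu
    simp only [Finset.mem_insert, Finset.mem_singleton, not_or] at hu
    refine ⟨hu.1.2, ?_, hu.2.1, hu.2.2.1, hu.2.2.2⟩
    rintro rfl
    exact hA _ hu.1.2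
  · have := hcard (Finset.univ.filter fun w => A w v)
    omega
  · have := hcard (Finset.univ.filter fun w => A v w)
    have := hout v
    omega
  · rw [← Finset.union_sdiff_distrib]
    have h5 := hcard ((Finset.univ.filter fun w => A w v) ∪ (Finset.univ.filter fun w => A v w))
    have h6 : ((Finset.univ.filter fun w => A w v) ∪ (Finset.univ.filter fun w => A v w)) =
        Finset.univ.filter fun u => A u v ∨ A v u := by
      ext u; simp
    rw [h6] at h5 ⊢
    omega

open Classical in
theorem nbr_card {V : Type} [Fintype V] (A : V → V → Prop) (v : V) :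
    outdeg A v ≤ (Finset.univ.filter fun u => A u v ∨ A v u).card := by
  unfold outdeg
  apply Finset.card_le_card
  intro u hu
  simp only [Finset.mem_filter, Finset.mem_univ, true_and] at hu ⊢
  exact Or.inr hu

open Classical in
theorem upper1 {V : Type} [Fintype V] (A : V → V → Prop) (hA : ∀ v, ¬ A v v)
    (hfree : ¬ Contains B1 A) (hdeg : ∀ v, 39 * Fintype.card V ≤ 50 * outdeg A v) :
    (under A).Colorable 13 := by
  rcases Nat.lt_or_ge (Fintype.card V) 14 with hn | hn
  · exact colorable_small _ _ (by omega)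
  have hV : Nonempty V := by
    rw [← Fintype.card_pos_iff]; omega
  -- a vertex of large in-degree
  obtain ⟨v, hv⟩ : ∃ v, 39 * Fintype.card V ≤ 50 * indeg A v := by
    by_contra hcon
    push Not at hcon
    have h1 : ∑ v : V, 50 * indeg A v < ∑ v : V, 39 * Fintype.card V :=
      Finset.sum_lt_sum_of_nonempty Finset.univ_nonempty (fun v _ => hcon v)
    have h2 : ∑ v : V, 39 * Fintype.card V ≤ ∑ v : V, 50 * outdeg A v :=
      Finset.sum_le_sum (fun v _ => hdeg v)
    rw [← Finset.mul_sum] at h1
    rw [← Finset.mul_sum (f := fun v => outdeg A v), ← sum_deg] at h2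
    omega
  by_contra hcol
  rcases Nat.lt_or_ge 15 (Fintype.card V) with hn2 | hn2
  · -- at least 16 vertices
    apply hfree
    refine embed1' A hA ((39 * Fintype.card V + 49) / 50) ?_ v ?_ ?_ ?_ ?_
    · intro u; have := hdeg u; omega
    · omega
    · omega
    · omega
    · have h1 := nbr_card A v
      have h2 := hdeg v
      omega
  rcases Nat.lt_or_ge 14 (Fintype.card V) with hn3 | hn3
  · -- 15 vertices
    have hn4 : Fintype.card V = 15 := by omega
    have hout : ∀ u, 12 ≤ outdeg A u := by intro u; have := hdeg u; omega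
    -- two vertices of in-degree at least 5
    have hsum : ∑ u : V, 12 ≤ ∑ u : V, indeg A u := by
      rw [sum_deg]; exact Finset.sum_le_sum (fun u _ => hout u)
    rw [Finset.sum_const, Finset.card_univ, hn4, smul_eq_mul] at hsum
    have hind : ∀ u, indeg A u ≤ 15 := by
      intro u; rw [← hn4]; exact Finset.card_le_univ _
    have hv5 : 5 ≤ indeg A v := by omega
    obtain ⟨w, hwv, hw⟩ : ∃ w, w ≠ v ∧ 5 ≤ indeg A w := by
      by_contra hcon
      push Not at hcon
      have h1 : ∑ u : V, indeg A u = indeg A v + ∑ u ∈ Finset.univ.erase v, indeg A u :=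
        (Finset.add_sum_erase _ _ (Finset.mem_univ v)).symm
      have h2 : ∑ u ∈ Finset.univ.erase v, indeg A u ≤ ∑ u ∈ Finset.univ.erase v, 4 := by
        refine Finset.sum_le_sum fun u hu => ?_
        have := hcon u (Finset.ne_of_mem_erase hu)
        omega
      rw [Finset.sum_const, Finset.card_erase_of_mem (Finset.mem_univ _), Finset.card_univ, hn4,
        smul_eq_mul] at h2
      have := hind v
      omega
    -- one of them has at most one non-neighbour
    have hkey : ∀ u, 5 ≤ indeg A u →
        ∃ a b, a ≠ b ∧ a ≠ u ∧ b ≠ u ∧ ¬ (under A).Adj u a ∧ ¬ (under A).Adj u b := by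
      intro u hu
      by_contra hcon
      apply hfree
      refine embed1' A hA 12 hout u (by omega) hu (by norm_num) ?_
      by_contra hlt
      push Not at hlt
      apply hcon
      have h1 : 1 < ((Finset.univ.filter fun w => ¬ (A w u ∨ A u w)).erase u).card := by
        have h2 := Finset.card_filter_add_card_filter_not (s := (Finset.univ : Finset V))
          (fun w => A w u ∨ A u w)
        rw [Finset.card_univ, hn4] at h2
        have h3 := Finset.pred_card_le_card_erase
          (s := Finset.univ.filter fun w => ¬ (A w u ∨ A u w)) (a := u)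
        omega
      obtain ⟨a, ha, b, hb, hab⟩ := Finset.one_lt_card.mp h1
      rw [Finset.mem_erase, Finset.mem_filter] at ha hb
      refine ⟨a, b, hab, ha.1, hb.1, ?_, ?_⟩
      · rintro ⟨-, h | h⟩
        · exact ha.2.2 (Or.inr h)
        · exact ha.2.2 (Or.inl h)
      · rintro ⟨-, h | h⟩
        · exact hb.2.2 (Or.inr h)
        · exact hb.2.2 (Or.inl h)
    obtain ⟨a1, b1, e1, e2, e3, e4, e5⟩ := hkey v hv5
    obtain ⟨a2, b2, f1, f2, f3, f4, f5⟩ := hkey w hw
    -- choose a non-neighbour of `v` other than `w`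
    obtain ⟨a, ha1, ha2, ha3⟩ : ∃ a, a ≠ v ∧ a ≠ w ∧ ¬ (under A).Adj v a := by
      by_cases h : a1 = w
      · exact ⟨b1, e3, fun h' => e1 (h.trans h'.symm), e5⟩
      · exact ⟨a1, e2, h, e4⟩
    obtain ⟨b, hb1, hb2, hb3⟩ : ∃ b, b ≠ w ∧ b ≠ v ∧ ¬ (under A).Adj w b := by
      by_cases h : a2 = v
      · exact ⟨b2, f3, fun h' => f1 (h.trans h'.symm), f5⟩
      · exact ⟨a2, f2, h, f4⟩
    by_cases hab : a = b
    · -- `a = b` is a common non-neighbour
      by_cases hvw : (under A).Adj v w
      · -- find another non-neighbour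
        obtain ⟨a', ha1', ha2', ha3', ha4'⟩ : ∃ a', a' ≠ v ∧ a' ≠ w ∧ a' ≠ a ∧
            ¬ (under A).Adj v a' := by
          have h1 : a1 ≠ w := fun h => e4 (by rw [h]; exact hvw)
          have h2 : b1 ≠ w := fun h => e5 (by rw [h]; exact hvw)
          by_cases h : a1 = a
          · exact ⟨b1, e3, h2, fun h' => e1 (h.trans h'.symm), e5⟩
          · exact ⟨a1, e2, h1, h, e4⟩
        apply hcol
        refine colorable_two (under A) 13 (by omega) (a := v) (b := a') (c := w) (d := a)
          ha1'.symm ha4' ha2.symm (by rw [hab]; exact hb3) ha3' ha1.symm ha2'.symm ?_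
        intro h; exact absurd h.symm hwv
      · apply hcol
        refine colorable_two (under A) 13 (by omega) (a := a) (b := v) (c := a) (d := w)
          ha1 (fun h => ha3 h.symm) ha2 (fun h => hb3 (by rw [hab] at h; exact h.symm)) hwv.symm
          ha2 ha1 (fun _ => hvw)
    · apply hcol
      refine colorable_two (under A) 13 (by omega) (a := v) (b := a) (c := w) (d := b)
        ha1.symm ha3 hb1.symm hb3 hab hb2.symm ha2.symm ?_
      intro h; exact absurd h.symm hwv
  · -- 14 vertices
    have hn4 : Fintype.card V = 14 := by omega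
    have hout : ∀ u, 11 ≤ outdeg A u := by intro u; have := hdeg u; omega
    apply hfree
    refine embed1' A hA 11 hout v (by omega) (by omega) (by norm_num) ?_
    by_contra hlt
    push Not at hlt
    have h1 : 0 < ((Finset.univ.filter fun w => ¬ (A w v ∨ A v w)).erase v).card := by
      have h2 := Finset.card_filter_add_card_filter_not (s := (Finset.univ : Finset V))
        (fun w => A w v ∨ A v w)
      rw [Finset.card_univ, hn4] at h2
      have h3 := Finset.pred_card_le_card_erase
        (s := Finset.univ.filter fun w => ¬ (A w v ∨ A v w)) (a := v)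
      omega
    obtain ⟨a, ha⟩ := Finset.card_pos.mp h1
    rw [Finset.mem_erase, Finset.mem_filter] at ha
    apply hcol
    refine colorable_one (under A) 13 (by omega) (a := v) (b := a) ha.1.symm ?_
    rintro ⟨-, h | h⟩
    · exact ha.2.2 (Or.inr h)
    · exact ha.2.2 (Or.inl h)

/-! ### The second orientation is contained in all large digraphs of linear out-degree -/

open Classical in
theorem embed2 {V : Type} [Fintype V] (A : V → V → Prop) (hA : ∀ v, ¬ A v v)
    (hn : 104 ≤ Fintype.card V) (hdeg : ∀ v, Fintype.card V ≤ 8 * outdeg A v) :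
    Contains B2 A := by
  have hV : Nonempty V := by
    rw [← Fintype.card_pos_iff]; omega
  obtain ⟨v, hv⟩ : ∃ v, Fintype.card V ≤ 8 * indeg A v := by
    by_contra hcon
    push Not at hcon
    have h1 : ∑ v : V, 8 * indeg A v < ∑ v : V, Fintype.card V :=
      Finset.sum_lt_sum_of_nonempty Finset.univ_nonempty (fun v _ => hcon v)
    have h2 : ∑ v : V, Fintype.card V ≤ ∑ v : V, 8 * outdeg A v :=
      Finset.sum_le_sum (fun v _ => hdeg v)
    rw [← Finset.mul_sum] at h1
    rw [← Finset.mul_sum (f := fun v => outdeg A v), ← sum_deg] at h2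
    omega
  set S : Finset V := Finset.univ.filter fun w => A w v with hS
  have hScard : Fintype.card V ≤ 8 * S.card := hv
  -- a second vertex with two in-neighbours in `S`
  obtain ⟨b, hbv, hb⟩ : ∃ b, b ≠ v ∧ 1 < (S.filter fun w => A w b).card := by
    by_contra hcon
    push Not at hcon
    have h1 : ∑ w ∈ S, outdeg A w = ∑ b : V, (S.filter fun w => A w b).card := by
      unfold outdeg
      simp_rw [Finset.card_filter]
      rw [Finset.sum_comm]
    have h2 : ∑ b : V, (S.filter fun w => A w b).card ≤ S.card + Fintype.card V := by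
      rw [← Finset.add_sum_erase _ _ (Finset.mem_univ v)]
      have h3 : (S.filter fun w => A w v).card ≤ S.card := Finset.card_filter_le _ _
      have h4 : ∑ b ∈ Finset.univ.erase v, (S.filter fun w => A w b).card ≤
          ∑ b ∈ Finset.univ.erase v, 1 :=
        Finset.sum_le_sum fun b hb => hcon b (Finset.ne_of_mem_erase hb)
      rw [Finset.sum_const, smul_eq_mul, mul_one] at h4
      have h5 := Finset.card_le_univ (Finset.univ.erase v)
      omega
    have h3 : ∑ w ∈ S, 13 ≤ ∑ w ∈ S, outdeg A w :=
      Finset.sum_le_sum fun w _ => by have := hdeg w; omega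
    rw [Finset.sum_const, smul_eq_mul] at h3
    omega
  obtain ⟨s1, hs1, s2, hs2, h12⟩ := Finset.one_lt_card.mp hb
  rw [Finset.mem_filter, hS, Finset.mem_filter] at hs1 hs2
  have k1 : A s1 v := hs1.1.2
  have k2 : A s2 v := hs2.1.2
  have k3 : A s1 b := hs1.2
  have k4 : A s2 b := hs2.2
  have d1 : v ≠ s1 := fun h => hA v (by rw [← h] at k1; exact k1)
  have d2 : v ≠ b := hbv.symm
  have d3 : v ≠ s2 := fun h => hA v (by rw [← h] at k2; exact k2)
  have d4 : s1 ≠ b := fun h => hA b (by rw [h] at k3; exact k3)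
  have d6 : b ≠ s2 := fun h => hA b (by rw [← h] at k4; exact k4)
  have hR : 10 ≤ (S \ {s1, b, s2}).card := by
    have h5 : ({s1, b, s2} : Finset V).card ≤ 3 := Finset.card_le_three
    have h6 := Finset.le_card_sdiff {s1, b, s2} S
    omega
  obtain ⟨R, hR1, hR2⟩ := Finset.exists_subset_card_eq hR
  have eR : (Fin 2 ⊕ Fin 8) ≃ {u // u ∈ R} :=
    Fintype.equivOfCardEq (by rw [Fintype.card_coe, hR2]; rfl)
  have fR : ∀ i, A (eR i).1 v ∧ (eR i).1 ≠ v ∧ (eR i).1 ≠ s1 ∧ (eR i).1 ≠ b ∧ (eR i).1 ≠ s2 := by
    intro i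
    have h1 := hR1 (eR i).2
    rw [Finset.mem_sdiff, hS, Finset.mem_filter] at h1
    simp only [Finset.mem_insert, Finset.mem_singleton, not_or] at h1
    refine ⟨h1.1.2, ?_, h1.2.1, h1.2.2.1, h1.2.2.2⟩
    intro h
    have := h1.1.2
    rw [h] at this
    exact hA v this
  let c : Fin 4 → V := ![v, s1, b, s2]
  have hc : ∀ i, c i = v ∨ c i = s1 ∨ c i = b ∨ c i = s2 := by
    intro i; fin_cases i <;> simp [c]
  refine ⟨Sum.elim c (fun i => (eR i).1), ?_, ?_⟩
  · rintro (i | i) (j | j) h
    · have h' : c i = c j := h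
      fin_cases i <;> fin_cases j <;> simp [c] at h' ⊢ <;>
        first
        | exact d1 h' | exact d2 h' | exact d3 h' | exact d4 h' | exact h12 h' | exact d6 h'
        | exact d1 h'.symm | exact d2 h'.symm | exact d3 h'.symm | exact d4 h'.symm
        | exact h12 h'.symm | exact d6 h'.symm
    · have h' : c i = (eR j).1 := h
      obtain ⟨-, a1, a2, a3, a4⟩ := fR j
      rcases hc i with k | k | k | k <;> rw [k] at h'
      · exact absurd h'.symm a1
      · exact absurd h'.symm a2
      · exact absurd h'.symm a3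
      · exact absurd h'.symm a4
    · have h' : (eR i).1 = c j := h
      obtain ⟨-, a1, a2, a3, a4⟩ := fR i
      rcases hc j with k | k | k | k <;> rw [k] at h'
      · exact absurd h' a1
      · exact absurd h' a2
      · exact absurd h' a3
      · exact absurd h' a4
    · have h' : (eR i).1 = (eR j).1 := h
      rw [eR.injective (Subtype.ext h')]
  · rintro (i | i) (j | j) h
    · simp only [B2] at h
      rcases h with ⟨rfl | rfl, rfl | rfl⟩
      · exact k1
      · exact k3
      · exact k2
      · exact k4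
    · simp only [B2] at h
    · simp only [B2] at h
      subst h; exact (fR i).1
    · simp only [B2] at h

/-! ### The construction for the threshold of the first orientation -/

/-- classes `1 → 2 → 3 → 1` completely joined, class `0` a transitive tournament with all arcs to
class `1` -/
def T (s : ℕ) (u v : Fin 4 × Fin s) : Prop :=
  (u.1 = 0 ∧ v.1 = 0 ∧ u.2 < v.2) ∨ (u.1 = 0 ∧ v.1 = 1) ∨ (u.1 = 1 ∧ v.1 = 2) ∨
    (u.1 = 2 ∧ v.1 = 3) ∨ (u.1 = 3 ∧ v.1 = 1)

theorem T_irrefl (s : ℕ) (u : Fin 4 × Fin s) : ¬ T s u u := by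
  unfold T
  rintro (⟨_, _, h⟩ | ⟨h, h'⟩ | ⟨h, h'⟩ | ⟨h, h'⟩ | ⟨h, h'⟩)
  · exact lt_irrefl _ h
  all_goals omega

theorem T_free (s : ℕ) : ¬ Contains B1 (T s) := by
  rintro ⟨f, _, hf⟩
  have h1 := hf (Sum.inl 0) (Sum.inl 1) (Or.inl ⟨rfl, rfl⟩)
  have h2 := hf (Sum.inl 1) (Sum.inl 2) (Or.inr (Or.inl ⟨rfl, rfl⟩))
  have h3 := hf (Sum.inl 2) (Sum.inl 3) (Or.inr (Or.inr (Or.inl ⟨rfl, rfl⟩)))
  have h4 := hf (Sum.inl 3) (Sum.inl 0) (Or.inr (Or.inr (Or.inr ⟨rfl, rfl⟩)))
  generalize f (Sum.inl 0) = a at *
  generalize f (Sum.inl 1) = b at *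
  generalize f (Sum.inl 2) = c at *
  generalize f (Sum.inl 3) = d at *
  unfold T at *
  rw [Fin.lt_def] at h1 h2 h3 h4
  omega

open Classical in
theorem T_deg (s : ℕ) (u : Fin 4 × Fin s) : s ≤ outdeg (T s) u := by
  unfold outdeg
  obtain ⟨j, hj⟩ : ∃ j : Fin 4, ∀ v : Fin 4 × Fin s, v.1 = j → T s u v := by
    obtain ⟨i, a⟩ := u
    fin_cases i
    · exact ⟨1, fun v hv => Or.inr (Or.inl ⟨rfl, hv⟩)⟩
    · exact ⟨2, fun v hv => Or.inr (Or.inr (Or.inl ⟨rfl, hv⟩))⟩
    · exact ⟨3, fun v hv => Or.inr (Or.inr (Or.inr (Or.inl ⟨rfl, hv⟩)))⟩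
    · exact ⟨1, fun v hv => Or.inr (Or.inr (Or.inr (Or.inr ⟨rfl, hv⟩)))⟩
  have h1 : (Finset.univ.image fun a : Fin s => (j, a)).card = s := by
    rw [Finset.card_image_of_injective _ (fun a b h => (Prod.ext_iff.mp h).2), Finset.card_univ,
      Fintype.card_fin]
  calc s = (Finset.univ.image fun a : Fin s => (j, a)).card := h1.symm
    _ ≤ _ := by
      apply Finset.card_le_card
      intro v hv
      rw [Finset.mem_image] at hv
      obtain ⟨a, _, rfl⟩ := hv
      rw [Finset.mem_filter]
      exact ⟨Finset.mem_univ _, hj _ rfl⟩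

theorem T_chrom (s k : ℕ) (h : (under (T s)).Colorable k) : s ≤ k := by
  obtain ⟨C⟩ := h
  have hinj : Function.Injective (fun a : Fin s => C (0, a)) := by
    intro a b hab
    by_contra hne
    have hadj : (under (T s)).Adj (0, a) (0, b) := by
      refine ⟨fun h => hne (Prod.ext_iff.mp h).2, ?_⟩
      rcases lt_or_gt_of_ne hne with h | h
      · exact Or.inl (Or.inl ⟨rfl, rfl, h⟩)
      · exact Or.inr (Or.inl ⟨rfl, rfl, h⟩)
    exact C.valid hadj hab
  have := Fintype.card_le_of_injective _ hinj
  simpa using this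

/-! ### The construction for the profile of the second orientation -/

/-- the circulant digraph on `Fin 14` with arcs `i → i + 1, …, i + 11` -/
def Circ (u v : Fin 14) : Prop := 1 ≤ (v - u).val ∧ (v - u).val ≤ 11

instance (u v : Fin 14) : Decidable (Circ u v) := by unfold Circ; infer_instance

theorem circ_irrefl (u : Fin 14) : ¬ Circ u u := by
  revert u; decide

theorem circ_in : ∀ v : Fin 14, (Finset.univ.filter fun w => Circ w v).card = 11 := by decide

theorem circ_out : ∀ v : Fin 14, (Finset.univ.filter fun w => Circ v w).card = 11 := by decide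

theorem circ_semi : ∀ u v : Fin 14, u ≠ v → Circ u v ∨ Circ v u := by decide

theorem circ_free : ¬ Contains B2 Circ := by
  rintro ⟨f, hf, hB⟩
  have h1 : 12 ≤ (Finset.univ.filter fun w => Circ w (f (Sum.inl 0))).card := by
    have h2 : ((Finset.univ.filter fun a : W => a ≠ Sum.inl 0 ∧ a ≠ Sum.inl 2).image f).card = 12 := by
      rw [Finset.card_image_of_injective _ hf]
      decide
    rw [← h2]
    apply Finset.card_le_card
    intro w hw
    rw [Finset.mem_image] at hw
    obtain ⟨a, ha, rfl⟩ := hw
    rw [Finset.mem_filter] at ha ⊢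
    refine ⟨Finset.mem_univ _, hB _ _ ?_⟩
    obtain ⟨-, ha1, ha2⟩ := ha
    rcases a with i | i
    · fin_cases i
      · exact absurd rfl ha1
      · exact ⟨Or.inl rfl, Or.inl rfl⟩
      · exact absurd rfl ha2
      · exact ⟨Or.inr rfl, Or.inl rfl⟩
    · exact rfl
  rw [circ_in] at h1
  omega

theorem circ_chrom (k : ℕ) (h : (under Circ).Colorable k) : 14 ≤ k := by
  obtain ⟨C⟩ := h
  have hinj : Function.Injective C := by
    intro a b hab
    by_contra hne
    exact C.valid (v := a) (w := b) ⟨hne, circ_semi a b hne⟩ hab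
  have := Fintype.card_le_of_injective _ hinj
  simpa using this

/-! ### Conclusion -/

theorem threshold2 : threshold B2 ≤ 1 / 8 := by
  apply csInf_le ⟨0, fun d hd => hd.1⟩
  refine ⟨by norm_num, 104, ?_⟩
  intro V _ A hA hfree hdeg
  rcases Nat.lt_or_ge (Fintype.card V) 104 with h | h
  · exact colorable_small _ _ h.le
  · exfalso
    apply hfree
    refine embed2 A hA h ?_
    intro v
    have h1 := hdeg v
    have h2 : (Fintype.card V : ℝ) ≤ 8 * (outdeg A v : ℝ) := by linarith
    exact_mod_cast h2

theorem threshold1 : 1 / 4 ≤ threshold B1 := by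
  apply le_csInf
  · refine ⟨2, by norm_num, 0, ?_⟩
    intro V _ A hA hfree hdeg
    by_cases hV : IsEmpty V
    · exact colorable_small _ _ ((Fintype.card_eq_zero (α := V)).le.trans (Nat.zero_le _))
    · exfalso
      rw [not_isEmpty_iff] at hV
      obtain ⟨v⟩ := hV
      have h1 := hdeg v
      have h2 : outdeg A v ≤ Fintype.card V := Finset.card_le_univ _
      have h3 : 0 < Fintype.card V := Fintype.card_pos_iff.mpr ⟨v⟩
      have h4 : (outdeg A v : ℝ) ≤ (Fintype.card V : ℝ) := by exact_mod_cast h2
      have h5 : (0 : ℝ) < (Fintype.card V : ℝ) := by exact_mod_cast h3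
      linarith
  · rintro d ⟨hd, C, hC⟩
    by_contra hlt
    push Not at hlt
    have h1 := hC (Fin 4 × Fin (C + 1)) inferInstance (T (C + 1)) (T_irrefl _) (T_free _) (by
      intro v
      have h2 := T_deg (C + 1) v
      have h3 : ((C + 1 : ℕ) : ℝ) ≤ (outdeg (T (C + 1)) v : ℝ) := by exact_mod_cast h2
      have h4 : (Fintype.card (Fin 4 × Fin (C + 1)) : ℝ) = 4 * ((C + 1 : ℕ) : ℝ) := by
        rw [Fintype.card_prod, Fintype.card_fin, Fintype.card_fin]; push_cast; ring
      rw [h4]
      have h5 : (0 : ℝ) < ((C + 1 : ℕ) : ℝ) := by positivity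
      nlinarith)
    have h2 := T_chrom _ _ h1
    omega

theorem profile1 : profile B1 13 ≤ 39 / 50 := by
  apply csInf_le ⟨0, fun d hd => hd.1⟩
  refine ⟨by norm_num, ?_⟩
  intro V _ A hA hfree hdeg
  refine upper1 A hA hfree ?_
  intro v
  have h1 := hdeg v
  have h2 : 39 * (Fintype.card V : ℝ) ≤ 50 * (outdeg A v : ℝ) := by linarith
  exact_mod_cast h2

theorem profile2 : 11 / 14 ≤ profile B2 13 := by
  classical
  apply le_csInf
  · refine ⟨2, by norm_num, ?_⟩
    intro V _ A hA hfree hdeg
    by_cases hV : IsEmpty V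
    · exact colorable_small _ _ ((Fintype.card_eq_zero (α := V)).le.trans (Nat.zero_le _))
    · exfalso
      rw [not_isEmpty_iff] at hV
      obtain ⟨v⟩ := hV
      have h1 := hdeg v
      have h2 : outdeg A v ≤ Fintype.card V := Finset.card_le_univ _
      have h3 : 0 < Fintype.card V := Fintype.card_pos_iff.mpr ⟨v⟩
      have h4 : (outdeg A v : ℝ) ≤ (Fintype.card V : ℝ) := by exact_mod_cast h2
      have h5 : (0 : ℝ) < (Fintype.card V : ℝ) := by exact_mod_cast h3
      linarith
  · rintro d ⟨hd, hC⟩
    by_contra hlt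
    push Not at hlt
    have h1 := hC (Fin 14) inferInstance Circ circ_irrefl circ_free (by
      intro v
      have h2 : outdeg Circ v = 11 := by
        rw [← circ_out v]
        unfold outdeg
        congr
      rw [h2, Fintype.card_fin]
      push_cast
      linarith)
    have h2 := circ_chrom _ h1
    omega

/-- **Disproof.** A graph `H` with two orientations such that the chromatic threshold of the first
is larger than that of the second, while for `k = 13` the chromatic profile of the first is smaller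
than that of the second. -/
theorem result : ∃ (W : Type) (_ : Fintype W) (H : SimpleGraph W) (B1 B2 : W → W → Prop) (k : ℕ),
    IsOrientation H B1 ∧ IsOrientation H B2 ∧ 2 ≤ k ∧ threshold B2 < threshold B1 ∧
      profile B1 k < profile B2 k := by
  refine ⟨W, inferInstance, H, B1, B2, 13, orient1, orient2, by norm_num, ?_, ?_⟩
  · have h1 := threshold1
    have h2 := threshold2
    linarith
  · have h1 := profile1
    have h2 := profile2
    linarith

end Pool.Agent.Results.MP_0ac583_co.Pendant
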